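import Pool.Agent.V8H99.FC0.Ellp

set_option autoImplicit false

/-!
# The Lipschitz-free space over `c₀` is not isomorphic to Pełczyński's universal basis space

The reason is that `ℓ_p` (`1 < p < 2`) is not isomorphic to a complemented subspace of `F(c₀)`. If it were, there would
be finitely supported measures `μ_n` on `c₀` (approximating the images of the unit vectors) and Lipschitz functions
`f_n` on `c₀` (the coordinates of the projection) with `⟨f_n, μ_n⟩ ≥ c₀ > 0`, with `‖∑_{n ∈ A} ± μ_n‖ = o(|A|)` and with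
`∑_{n ∈ A} ± f_n` being `o(√|A|)`-Lipschitz. One first reduces to measures supported on a compact box; there one builds
inductively one Lipschitz function, with Lipschitz constant independent of `J`, which is bounded away from zero on `J`
of the measures, for every `J`. The disjointness needed for this comes from Khinchin's inequality: smooth approximations
of the `f_n` have large derivatives at a given point for boundedly many `n` only.
-/

namespace Pool.Agent.Results.MP_ebafbb_an.NotPelczynski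

open Filter Topology
open scoped ENNReal ZeroAtInfty

universe u v

/-- `E`, with the map `δ : M → E`, is the Lipschitz-free space over the metric space `M` with base point `o` -/
structure IsLipschitzFree (M : Type*) [MetricSpace M] (o : M) (E : Type*) [NormedAddCommGroup E]
    [NormedSpace ℝ E] (δ : M → E) : Prop where
  base : δ o = 0
  lip : LipschitzWith 1 δ
  dense : Dense ((Submodule.span ℝ (Set.range δ) : Submodule ℝ E) : Set E)
  ext : ∀ (K : NNReal) (f : M → ℝ), LipschitzWith K f → f o = 0 →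
    ∃ φ : E →L[ℝ] ℝ, ‖φ‖ ≤ (K : ℝ) ∧ ∀ x, φ (δ x) = f x

/-- `x` is a Schauder basis of `X` -/
def IsSchauderBasis {X : Type*} [NormedAddCommGroup X] [NormedSpace ℝ X] (x : ℕ → X) : Prop :=
  ∀ y : X, ∃! a : ℕ → ℝ, Tendsto (fun N => ∑ n ∈ Finset.range N, a n • x n) atTop (𝓝 y)

/-- the closed linear span of a sequence -/
def closedSpan {X : Type*} [NormedAddCommGroup X] [NormedSpace ℝ X] (x : ℕ → X) : Submodule ℝ X :=
  (Submodule.span ℝ (Set.range x)).topologicalClosure

/-- the sequences `x` and `y` are equivalent: an isomorphism of the closed linear spans maps `x k` to `y k` -/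
def Equivalent {X P : Type*} [NormedAddCommGroup X] [NormedSpace ℝ X] [NormedAddCommGroup P]
    [NormedSpace ℝ P] (x : ℕ → X) (y : ℕ → P) : Prop :=
  ∃ T : closedSpan x ≃L[ℝ] closedSpan y, ∀ (k : ℕ) (z : closedSpan x), (z : X) = x k → (T z : P) = y k

/-- `w` is a Schauder basis of `P` such that every normalized Schauder basis `x` of every Banach space `X` is equivalent
to a subsequence of `w` whose closed linear span is complemented in `P` -/
structure IsPelczynski (P : Type*) [NormedAddCommGroup P] [NormedSpace ℝ P] (w : ℕ → P) : Prop where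
  basis : IsSchauderBasis w
  universal : ∀ (X : Type) [NormedAddCommGroup X] [NormedSpace ℝ X] [CompleteSpace X] (x : ℕ → X),
    IsSchauderBasis x → (∀ k, ‖x k‖ = 1) → ∃ n : ℕ → ℕ, StrictMono n ∧ Equivalent x (w ∘ n) ∧
      (closedSpan (w ∘ n)).ClosedComplemented

/-- `X` is isomorphic to a complemented subspace of `E` -/
def IsComplementedIn (X E : Type*) [NormedAddCommGroup X] [NormedSpace ℝ X] [NormedAddCommGroup E]
    [NormedSpace ℝ E] : Prop := ∃ (i : X →L[ℝ] E) (Q : E →L[ℝ] X), ∀ z, Q (i z) = z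

/-- the sequence space `ℓ_p` -/
abbrev Ell (p : ℝ≥0∞) : Type := lp (fun _ : ℕ => ℝ) p

theorem result {E : Type u} [NormedAddCommGroup E] [NormedSpace ℝ E] {δ : C₀(ℕ, ℝ) → E}
    (hE : IsLipschitzFree C₀(ℕ, ℝ) 0 E δ) :
    (∀ (P : Type v) [NormedAddCommGroup P] [NormedSpace ℝ P] [CompleteSpace P] (w : ℕ → P),
      IsPelczynski P w → ¬ Nonempty (E ≃L[ℝ] P)) ∧
    ∀ (p : ℝ≥0∞) [Fact (1 ≤ p)], 1 < p → p < 2 → ¬ IsComplementedIn (Ell p) E := by
  have hE' : Pool.Agent.V8H99.FC0.IsFree E δ := ⟨hE.base, hE.lip, hE.dense, hE.ext⟩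
  refine ⟨?_, fun p _ hp1 hp2 ⟨i, Q, h⟩ => hE'.not_lp hp1 hp2 i Q h⟩
  intro P _ _ _ w hP hS
  obtain ⟨S⟩ := hS
  have hp1 : (1 : ℝ≥0∞) < 3 / 2 := by
    rw [ENNReal.lt_div_iff_mul_lt (by simp) (by simp)]
    norm_num
  have hp2 : (3 / 2 : ℝ≥0∞) < 2 := by
    rw [ENNReal.div_lt_iff (by simp) (by simp)]
    norm_num
  have : Fact ((1 : ℝ≥0∞) ≤ 3 / 2) := ⟨hp1.le⟩
  have hb : IsSchauderBasis (Pool.Agent.V8H99.FC0.ev (3 / 2 : ℝ≥0∞)) := fun y =>
    Pool.Agent.V8H99.FC0.schauder_ev (hp2.trans ENNReal.ofNat_lt_top).ne y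
  obtain ⟨n, -, ⟨T, -⟩, ⟨π, hπ⟩⟩ := hP.universal (Ell (3 / 2 : ℝ≥0∞))
    (Pool.Agent.V8H99.FC0.ev (3 / 2 : ℝ≥0∞)) hb (fun k => Pool.Agent.V8H99.FC0.norm_ev _ k)
  -- the closed span of a basis is the whole space
  have htop : ∀ z : Ell (3 / 2 : ℝ≥0∞), z ∈ closedSpan (Pool.Agent.V8H99.FC0.ev (3 / 2 : ℝ≥0∞)) := by
    intro z
    obtain ⟨a, ha, -⟩ := hb z
    refine mem_closure_of_tendsto ha (Eventually.of_forall fun N => ?_)
    exact Submodule.sum_mem _ fun k _ => Submodule.smul_mem _ _ (Submodule.subset_span ⟨k, rfl⟩)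
  refine hE'.not_lp hp1 hp2
    ((S.symm : P →L[ℝ] E) ∘L (closedSpan (w ∘ n)).subtypeL ∘L
      (T : closedSpan (Pool.Agent.V8H99.FC0.ev (3 / 2 : ℝ≥0∞)) →L[ℝ] closedSpan (w ∘ n)) ∘L
      ((ContinuousLinearMap.id ℝ (Ell (3 / 2 : ℝ≥0∞))).codRestrict _ htop))
    ((closedSpan (Pool.Agent.V8H99.FC0.ev (3 / 2 : ℝ≥0∞))).subtypeL ∘L
      (T.symm : closedSpan (w ∘ n) →L[ℝ] closedSpan (Pool.Agent.V8H99.FC0.ev (3 / 2 : ℝ≥0∞))) ∘L π ∘L
      (S : E →L[ℝ] P)) fun z => ?_
  first
    | (simp [hπ]; done)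
    | (simp [hπ]; rfl)

end Pool.Agent.Results.MP_ebafbb_an.NotPelczynski
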